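import Mathlib

/-!
# A coincidence between the sequences `H_a` and `H_b`

`H_42(49) = 1 + 49!/(7! · 42) = 1 + 47!/(2! · 45) = H_45(47)`.
-/

namespace Pool.Agent.Results.MP_2d70c5_nt.CoincidenceExists

open Equiv Finset

/-- `H d n` is the number of permutations of an `n`-element set in which every cycle has
length `1` or `d` (`cycleType` is the multiset of the cycle lengths different from `1`). -/
noncomputable def H (d n : ℕ) : ℕ :=
  Nat.card {σ : Equiv.Perm (Fin n) // ∀ c ∈ σ.cycleType, c = d}

lemma H_eq (d n : ℕ) (hd : 2 ≤ d) (hdn : d ≤ n) (hn : n < 2 * d) :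
    H d n = 1 + (d - 1).factorial * n.choose d := by
  classical
  have hiff : ∀ σ : Equiv.Perm (Fin n),
      (∀ c ∈ σ.cycleType, c = d) ↔ (σ = 1 ∨ σ.cycleType = {d}) := by
    intro σ
    constructor
    · intro h
      have hrep : σ.cycleType = Multiset.replicate (Multiset.card σ.cycleType) d :=
        Multiset.eq_replicate_card.mpr h
      have hsum : σ.cycleType.sum ≤ n := by simpa using σ.sum_cycleType_le
      rw [hrep, Multiset.sum_replicate, smul_eq_mul] at hsum
      have hcard : Multiset.card σ.cycleType < 2 := by
        by_contra hc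
        push Not at hc
        have := Nat.mul_le_mul_right d hc
        omega
      interval_cases hk : Multiset.card σ.cycleType
      · left
        exact Equiv.Perm.card_cycleType_eq_zero.mp hk
      · right
        rw [hrep]
        rfl
    · rintro (rfl | h) c hc
      · simp at hc
      · rw [h] at hc
        simpa using hc
  unfold H
  rw [Nat.card_eq_fintype_card, Fintype.card_subtype]
  have hsplit : (Finset.univ.filter fun σ : Equiv.Perm (Fin n) => ∀ c ∈ σ.cycleType, c = d) =
      {1} ∪ (Finset.univ.filter fun σ : Equiv.Perm (Fin n) => σ.cycleType = {d}) := by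
    ext σ
    simp only [mem_filter, mem_univ, true_and, mem_union, mem_singleton]
    exact hiff σ
  rw [hsplit, card_union_of_disjoint, card_singleton,
    Equiv.Perm.card_of_cycleType_singleton hd (by simpa using hdn), Fintype.card_fin]
  rw [disjoint_singleton_left]
  simp only [mem_filter, mem_univ, true_and, Equiv.Perm.cycleType_one]
  intro h
  simpa using congrArg Multiset.card h

/-- There are `2 ≤ a < b`, `n ≥ a`, `m ≥ b` with `H_a(n) = H_b(m)`. -/
theorem result : ∃ a b n m : ℕ, 2 ≤ a ∧ a < b ∧ a ≤ n ∧ b ≤ m ∧ H a n = H b m := by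
  refine ⟨42, 45, 49, 47, by norm_num, by norm_num, by norm_num, by norm_num, ?_⟩
  rw [H_eq 42 49 (by norm_num) (by norm_num) (by norm_num),
    H_eq 45 47 (by norm_num) (by norm_num) (by norm_num)]
  norm_num [Nat.choose_eq_factorial_div_factorial, Nat.factorial]

end Pool.Agent.Results.MP_2d70c5_nt.CoincidenceExists
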